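import Pool.Agent.CBG.StmtsA

/-!
# Row QLO: the local stability theorem
-/

set_option autoImplicit false
set_option maxSynthPendingDepth 3

open scoped Manifold ContDiff Topology
open Set Filter MeasureTheory

namespace Pool.Agent.CBG.H25

open Pool.Agent.CBG

theorem cd_H {n : ℕ} {H : ℝ × ℝ → Ed n → Bil (Ed n)} {X : ℝ × ℝ →L[ℝ] Ed n} (hD : Dat n H X)
    (t : ℝ × ℝ) : ContDiffAt ℝ 2 (H t) 0 := by
  have h1 : ContDiffAt ℝ 2 (fun q : (ℝ × ℝ) × Ed n => H q.1 q.2) (t, 0) :=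
    (hD.smooth t).of_le (WithTop.coe_le_coe.2 (le_top : (2 : ℕ∞) ≤ ⊤))
  have h2 : ContDiffAt ℝ 2 (fun y : Ed n => ((t, y) : (ℝ × ℝ) × Ed n)) 0 :=
    contDiffAt_const.prodMk contDiffAt_id
  exact ContDiffAt.comp (0 : Ed n) (g := fun q : (ℝ × ℝ) × Ed n => H q.1 q.2) h1 h2

theorem gram_on {n : ℕ} {B : Bil (Ed n)} {v z : Ed n} (hs : ∀ x y, B x y = B y x)
    (h1 : B v v = 1) (h2 : B z z = 1) (h3 : B v z = 0) (s t : ℝ) :
    B (s • v + t • z) (s • v + t • z) = s ^ 2 + t ^ 2 := by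
  have h4 : B z v = 0 := by rw [hs]; exact h3
  simp only [map_add, map_smul, ContinuousLinearMap.add_apply, ContinuousLinearMap.smul_apply,
    smul_eq_mul, h1, h2, h3, h4]
  ring

theorem qlo (hCHX : ChxStmt) (hGRM : GrmStmt) (hGSO : GsoStmt) (hSYM : SymStmt) (hBRG : BrgStmt)
    (hBAS : BasStmt) (hJET : JetStmt) (hSBD : SbdStmt) (hMU0 : Mu0Stmt) (hUNI : UniStmt)
    (hQAV : QavStmt) : QloStmt := by
  intro n H X hD ε lam hε hlam hbd hOne hlow hcov hmax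
  obtain ⟨hprob, hint, -, -⟩ := hMU0
  obtain ⟨-, hchr⟩ := hCHX
  obtain ⟨grm1, grm2, -⟩ := hGRM
  set G : Ed n → Bil (Ed n) := fun y => ∫ t, H t y ∂mu with hGdef
  obtain ⟨hG2, hGs, hGp, hGinv, hG0, hG1, hGlin⟩ := hQAV n H X hD G (fun y => rfl)
  have hmax' : ∀ᶠ y in 𝓝 (0 : Ed n),
      inv11 (fun a b => G y (X a) (X b)) ≤ inv11 (fun a b => G 0 (X a) (X b)) := by
    have hU := hUNI n H X hD
    have hU0 := hU.self_of_nhds
    filter_upwards [hU, hmax] with y hy hm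
    have e : ∀ y : Ed n, Continuous (fun t => H t y) → ∀ a b : ℝ × ℝ,
        G y (X a) (X b) = ∫ t, H t y (X a) (X b) ∂mu := by
      intro y hc a b
      have i1 : Integrable (fun t => H t y) mu := hint (Bil (Ed n)) _ hc
      have i2 : Integrable (fun t => H t y (X a)) mu :=
        hint (Ed n →L[ℝ] ℝ) _ (hc.clm_apply continuous_const)
      show (∫ t, H t y ∂mu) (X a) (X b) = _
      rw [ContinuousLinearMap.integral_apply i1, ContinuousLinearMap.integral_apply i2]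
    simp only [e y hy.2, e 0 hU0.2]
    exact hm
  obtain ⟨v0, z0, hli, hneg⟩ := hBRG n G X hG2 hGs hGp hD.inj hGinv hmax'
  obtain ⟨⟨a0, ha0⟩, -⟩ := hchr n G 0 hGp v0 z0
  obtain ⟨⟨b0, hb0⟩, -⟩ := hchr n G 0 hGp v0 v0
  obtain ⟨⟨c0, hc0⟩, -⟩ := hchr n G 0 hGp z0 z0
  have hneg0 := hneg a0 b0 c0 ha0 hb0 hc0
  obtain ⟨p, r, s, hp, hs, hpp, hzz, hpz⟩ :=
    hGSO n (H 0 0) v0 z0 (hD.symm 0 0) (hD.pos 0) hli
  obtain ⟨a', b', c', ha', hb', hc', hcurv⟩ :=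
    hBAS n G hG2 hGs v0 z0 a0 b0 c0 ha0 hb0 hc0 p 0 r s
  rw [zero_smul, add_zero] at ha' hb' hcurv
  set v : Ed n := p • v0 with hv
  set z : Ed n := r • v0 + s • z0 with hz
  have hcurv' : curv G 0 v z a' b' c' ≤ 0 := by
    rw [hcurv]
    exact mul_nonpos_of_nonneg_of_nonpos (sq_nonneg _) hneg0
  obtain ⟨⟨a, ha⟩, -⟩ := hchr n (H 0) 0 (hD.pos 0) v z
  obtain ⟨⟨b, hb⟩, -⟩ := hchr n (H 0) 0 (hD.pos 0) v v
  obtain ⟨⟨c, hc⟩, -⟩ := hchr n (H 0) 0 (hD.pos 0) z z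
  set m : ℝ := 9 / 4 * ε ^ 2 * lam ^ 2 with hm
  set κ : ℝ := (lam ^ 2)⁻¹ with hκ
  have hl2 : 0 < lam ^ 2 := by positivity
  have hκ0 : 0 < κ := inv_pos.2 hl2
  have hsymH : ∀ t, ∀ u v w : Ed n, fderiv ℝ (H t) 0 u v w = fderiv ℝ (H t) 0 u w v := fun t =>
    (hSYM n (H t) (cd_H hD t) (Filter.Eventually.of_forall (hD.symm t))).1
  have key : ∀ t, κ ^ 2 - 2 * m ≤ lin (H t) v z a b c := by
    intro t
    obtain ⟨⟨at', hat⟩, -⟩ := hchr n (H t) 0 (hD.pos t) v z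
    obtain ⟨⟨bt, hbt⟩, -⟩ := hchr n (H t) 0 (hD.pos t) v v
    obtain ⟨⟨ct, hct⟩, -⟩ := hchr n (H t) 0 (hD.pos t) z z
    have e1 := hJET n (H t) (hD.symm t 0) v z a b c at' bt ct hat hbt hct
    have e2 := hOne t v z at' bt ct hat hbt hct
    have e3 := grm1 n (H t 0) v z κ (hD.symm t 0) hκ0.le (by
      intro x y
      have h1 := hlow t (x • v + y • z)
      rw [gram_on (hD.symm 0 0) hpp hzz hpz x y] at h1
      have h2 : κ * (x ^ 2 + y ^ 2) ≤ κ * (lam ^ 2 * H t 0 (x • v + y • z) (x • v + y • z)) :=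
        mul_le_mul_of_nonneg_left h1 hκ0.le
      rw [← mul_assoc, hκ, inv_mul_cancel₀ hl2.ne', one_mul] at h2
      exact h2)
    have s1 := hSBD n (H 0) (H t) (hD.symm 0 0) (hD.symm t 0) (hsymH 0) (hsymH t) (hD.pos 0) ε lam
      hε (hlow t) (hcov t) v z a at' ha hat
    have s2 := hSBD n (H 0) (H t) (hD.symm 0 0) (hD.symm t 0) (hsymH 0) (hsymH t) (hD.pos 0) ε lam
      hε (hlow t) (hcov t) v v b bt hb hbt
    have s3 := hSBD n (H 0) (H t) (hD.symm 0 0) (hD.symm t 0) (hsymH 0) (hsymH t) (hD.pos 0) ε lam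
      hε (hlow t) (hcov t) z z c ct hc hct
    rw [hpp, hzz, mul_one, mul_one] at s1
    rw [hpp, mul_one, mul_one] at s2
    rw [hzz, mul_one, mul_one] at s3
    have hps : ∀ x, 0 ≤ H t 0 x x := by
      intro x
      by_cases hx : x = 0
      · rw [hx]
        simp
      · exact (hD.pos t x hx).le
    have s4 := grm2 n (H t 0) (bt - b) (ct - c) m (hD.symm t 0) hps s2 s3
    have s5 := (abs_le.1 s4).1
    linarith
  have hsc : ∀ C : ℝ, ∫ _ : ℝ × ℝ, C ∂mu = C := by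
    intro C
    have := hprob
    rw [integral_const, probReal_univ, one_smul]
  have hicst : ∀ C : ℝ, Integrable (fun _ : ℝ × ℝ => C) mu := fun C =>
    hint ℝ _ continuous_const
  have keyG : κ ^ 2 - 2 * m ≤ lin G v z a b c := by
    obtain ⟨h1, h2⟩ := hGlin v z a b c
    rw [h2, ← hsc (κ ^ 2 - 2 * m)]
    exact integral_mono (hicst _) (hint ℝ _ h1) key
  have hlowG : ∀ u : Ed n, H 0 0 u u ≤ lam ^ 2 * G 0 u u := by
    intro u
    obtain ⟨h1, h2⟩ := hG0 u u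
    rw [h2, ← integral_const_mul, ← hsc (H 0 0 u u)]
    exact integral_mono (hicst _) (hint ℝ _ (continuous_const.mul h1)) (fun t => hlow t u)
  have hcovG : CovLe ε (H 0) G 0 := by
    intro u v w a b ha hb
    have e : cov G 0 u v w a b = ∫ t, cov (H t) 0 u v w a b ∂mu := by
      unfold cov
      have i1 := hint ℝ _ (hG1 u v w).1
      have i2 := hint ℝ _ (hG0 a w).1
      have i3 := hint ℝ _ (hG0 v b).1
      have j1 := integral_sub i1 i2
      have j2 := integral_sub (i1.sub i2) i3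
      simp only [Pi.sub_apply] at j2
      rw [(hG1 u v w).2, (hG0 a w).2, (hG0 v b).2, ← j1, ← j2]
    rw [e]
    have := hprob
    have h1 := norm_integral_le_of_norm_le_const (μ := mu) (f := fun t => cov (H t) 0 u v w a b)
      (C := ε * (√(H 0 0 u u) * √(H 0 0 v v) * √(H 0 0 w w)))
      (Filter.Eventually.of_forall (fun t => by
        rw [Real.norm_eq_abs]
        exact hcov t u v w a b ha hb))
    rw [probReal_univ, mul_one, Real.norm_eq_abs] at h1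
    exact h1
  have hGs0 : ∀ v w : Ed n, G 0 v w = G 0 w v := hGs.self_of_nhds
  have hsymG := (hSYM n G hG2 hGs).1
  have e1 := hJET n G hGs0 v z a b c a' b' c' ha' hb' hc'
  have s2 := hSBD n (H 0) G (hD.symm 0 0) hGs0 (hsymH 0) hsymG (hD.pos 0) ε lam
    hε hlowG hcovG v v b b' hb hb'
  have s3 := hSBD n (H 0) G (hD.symm 0 0) hGs0 (hsymH 0) hsymG (hD.pos 0) ε lam
    hε hlowG hcovG z z c c' hc hc'
  rw [hpp, mul_one, mul_one] at s2
  rw [hzz, mul_one, mul_one] at s3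
  have hps : ∀ x, 0 ≤ G 0 x x := by
    intro x
    by_cases hx : x = 0
    · rw [hx]
      simp
    · exact (hGp x hx).le
  have s4 := grm2 n (G 0) (b' - b) (c' - c) m hGs0 hps s2 s3
  have s5 := (abs_le.1 s4).2
  have s6 := hps (a' - a)
  have h7 : κ ^ 2 ≤ 3 * m := by linarith
  have h8 : κ ^ 2 * (lam ^ 2) ^ 2 = 1 := by
    rw [← mul_pow, hκ, inv_mul_cancel₀ hl2.ne', one_pow]
  have h9 : κ ^ 2 * (lam ^ 2) ^ 2 ≤ 3 * m * (lam ^ 2) ^ 2 :=
    mul_le_mul_of_nonneg_right h7 (by positivity)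
  rw [h8, hm] at h9
  nlinarith [h9, hbd]

end Pool.Agent.CBG.H25
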